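import Mathlib
import Pool.Agent.Lib.MP_84111f_co.Flats

/-!
# Rank-4 perfect matroid designs in which any two hyperplanes meet: the classification

Both directions: the perfect matroid designs of rank 4 with `c(0,3) = 0` are exactly the rank-4
truncations of the Boolean algebras of rank 4 and 5 and of the projective spaces of rank 4 and 5
over finite fields.
-/

open Set
open scoped LinearAlgebra.Projectivization

namespace Pool.Agent.Results.MP_84111f_co.Classification

universe u

/-- A perfect matroid design of rank `r`: a simple matroid of rank `r` on a finite set in which all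
flats of the same rank have the same size. -/
structure IsPMD {α : Type u} (M : Matroid α) (r : ℕ) : Prop where
  finite : M.E.Finite
  flat_empty : M.IsFlat ∅
  flat_point : ∀ e ∈ M.E, M.IsFlat {e}
  rank_eq : M.eRank = r
  size_eq : ∀ F G : Set α, M.IsFlat F → M.IsFlat G → M.eRk F = M.eRk G → F.ncard = G.ncard

/-- The number of `u`-flats `F₁` with `F₁ ∩ F = E`. For an `i`-flat `E` contained in a `u`-flat `F`
this is the number `c(i,u)`. -/
noncomputable def cNum {α : Type u} (M : Matroid α) (E F : Set α) (k : ℕ) : ℕ :=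
  {F₁ : Set α | M.IsFlat F₁ ∧ M.eRk F₁ = k ∧ F₁ ∩ F = E}.ncard

/-- The flats of the rank-4 truncation of the Boolean algebra of rank `n`: the sets with at most
three elements and the whole set. -/
def BoolFlat (n : ℕ) (A : Set (Fin n)) : Prop := A = Set.univ ∨ A.ncard ≤ 3

/-- The flats of the rank-4 truncation of the projective space of rank `n` over `K`: the sets of
points of the subspaces of vector space dimension at most three and the whole set. -/
def ProjFlat (K : Type) [Field K] (n : ℕ) (A : Set (ℙ K (Fin n → K))) : Prop :=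
  A = Set.univ ∨ ∃ W : Submodule K (Fin n → K), Module.finrank K W ≤ 3 ∧
    A = {p | p.submodule ≤ W}

/-- `M` is isomorphic to the matroid on `β` whose flats are the sets with the property `Fl`: a
bijection from the ground set of `M` to `β` maps the flats onto them. -/
def IsoTo {α : Type u} (M : Matroid α) {β : Type} (Fl : Set β → Prop) : Prop :=
  ∃ e : M.E ≃ β, ∀ A : Set M.E, M.IsFlat (Subtype.val '' A) ↔ Fl (e '' A)

open Pool.Agent.MP84111f

theorem hyp_meet {α : Type u} {M : Matroid α} (hfin : M.E.Finite)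
    (h : ∀ F : Set α, M.IsFlat F → M.eRk F = 3 → cNum M ∅ F 3 = 0) {F G : Set α}
    (hF : M.IsFlat F) (hF3 : M.eRk F = 3) (hG : M.IsFlat G) (hG3 : M.eRk G = 3) :
    (F ∩ G).Nonempty := by
  by_contra hcon
  rw [Set.not_nonempty_iff_eq_empty] at hcon
  have h1 := h G hG hG3
  unfold cNum at h1
  have hf : {F₁ : Set α | M.IsFlat F₁ ∧ M.eRk F₁ = (3 : ℕ) ∧ F₁ ∩ G = ∅}.Finite := by
    refine (hfin.finite_subsets).subset ?_
    intro X hX
    exact hX.1.subset_ground
  rw [Set.ncard_eq_zero hf] at h1
  have : F ∈ {F₁ : Set α | M.IsFlat F₁ ∧ M.eRk F₁ = (3 : ℕ) ∧ F₁ ∩ G = ∅} := ⟨hF, hF3, hcon⟩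
  rw [h1] at this
  exact this

theorem cNum_zero {α : Type u} {M : Matroid α}
    (h : ∀ F G : Set α, M.IsFlat F → M.eRk F = 3 → M.IsFlat G → M.eRk G = 3 → (F ∩ G).Nonempty)
    (F : Set α) (hF : M.IsFlat F) (hF3 : M.eRk F = 3) : cNum M ∅ F 3 = 0 := by
  unfold cNum
  have : {F₁ : Set α | M.IsFlat F₁ ∧ M.eRk F₁ = (3 : ℕ) ∧ F₁ ∩ F = ∅} = ∅ := by
    rw [Set.eq_empty_iff_forall_notMem]
    rintro G ⟨hG, hG3, hGF⟩
    have := h G F hG hG3 hF hF3
    rw [hGF] at this
    exact Set.not_nonempty_empty this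
  rw [this, Set.ncard_empty]

/-! ## The converse -/

theorem of_bool {α : Type u} {M : Matroid α} {n : ℕ} (hn : n = 4 ∨ n = 5)
    (h : IsoTo M (BoolFlat n)) :
    IsPMD M 4 ∧ ∀ F : Set α, M.IsFlat F → M.eRk F = 3 → cNum M ∅ F 3 = 0 := by
  obtain ⟨e, he⟩ := h
  have hfE : Finite M.E := Finite.of_equiv _ e.symm
  have hfin : M.E.Finite := M.E.toFinite
  have hcard : M.E.ncard = n := by
    have := Nat.card_congr e
    rw [Nat.card_eq_fintype_card (α := Fin n), Fintype.card_fin] at this
    exact this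
  have hfl : ∀ F ⊆ M.E, M.IsFlat F ↔ F = M.E ∨ F.ncard ≤ 3 := by
    intro F hF
    have h1 : Subtype.val '' (Subtype.val ⁻¹' F : Set M.E) = F := by
      rw [Subtype.image_preimage_coe, Set.inter_eq_right.mpr hF]
    have h2 := he (Subtype.val ⁻¹' F)
    rw [h1] at h2
    rw [h2, BoolFlat, Set.ncard_image_of_injective _ e.injective]
    have h3 : (Subtype.val ⁻¹' F : Set M.E).ncard = F.ncard := by
      rw [← Set.ncard_image_of_injective _ Subtype.val_injective, h1]
    have h4 : e '' (Subtype.val ⁻¹' F) = Set.univ ↔ F = M.E := by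
      rw [← Set.image_univ_of_surjective e.surjective, e.injective.image_injective.eq_iff, Set.preimage_eq_univ_iff,
        Subtype.range_coe]
      exact ⟨fun hh => hF.antisymm hh, fun hh => hh.ge⟩
    rw [h3, h4]
  have hr := Flats.bool_rank hfin hfl (by omega)
  have hs := fun (F : Set α) hF h3 => Flats.bool_eRk hfin hfl (F := F) hF h3
  refine ⟨⟨hfin, ?_, ?_, ?_, ?_⟩, cNum_zero ?_⟩
  · exact (hfl _ (Set.empty_subset _)).mpr (Or.inr (by simp))
  · intro x hx
    exact (hfl _ (by simpa using hx)).mpr (Or.inr (by simp))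
  · rw [← M.eRk_ground, hr]; rfl
  · intro F G hF hG hFG
    rcases (hfl F hF.subset_ground).mp hF with h1 | h1 <;>
      rcases (hfl G hG.subset_ground).mp hG with h2 | h2
    · rw [h1, h2]
    · rw [h1, hr, hs G hG.subset_ground h2] at hFG
      have : (4 : ℕ) = G.ncard := by exact_mod_cast hFG
      omega
    · rw [h2, hr, hs F hF.subset_ground h1] at hFG
      have : F.ncard = (4 : ℕ) := by exact_mod_cast hFG
      omega
    · rw [hs F hF.subset_ground h1, hs G hG.subset_ground h2] at hFG
      exact_mod_cast hFG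
  · intro F G hF hF3 hG hG3
    have hn3 : ∀ X : Set α, M.IsFlat X → M.eRk X = 3 → X.ncard = 3 := by
      intro X hX hX3
      rcases (hfl X hX.subset_ground).mp hX with h1 | h1
      · rw [h1, hr] at hX3
        exact absurd hX3 (by decide)
      · rw [hs X hX.subset_ground h1] at hX3
        exact_mod_cast hX3
    by_contra hcon
    rw [Set.not_nonempty_iff_eq_empty] at hcon
    have h1 := Set.ncard_union_eq (Set.disjoint_iff_inter_eq_empty.mpr hcon)
      (hfin.subset hF.subset_ground) (hfin.subset hG.subset_ground)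
    have h2 := Set.ncard_le_ncard (Set.union_subset hF.subset_ground hG.subset_ground) hfin
    rw [h1, hn3 F hF hF3, hn3 G hG hG3, hcard] at h2
    omega

theorem of_proj {α : Type u} {M : Matroid α} {n : ℕ} (hn : n = 4 ∨ n = 5) {K : Type} [Field K]
    [Finite K] (h : IsoTo M (ProjFlat K n)) :
    IsPMD M 4 ∧ ∀ F : Set α, M.IsFlat F → M.eRk F = 3 → cNum M ∅ F 3 = 0 := by
  classical
  obtain ⟨e, he⟩ := h
  have hVf : Finite (Fin n → K) := inferInstance
  have hPf : Finite (ℙ K (Fin n → K)) := inferInstance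
  have hfE : Finite M.E := Finite.of_equiv _ e.symm
  have hfin : M.E.Finite := M.E.toFinite
  let v : α → Fin n → K := fun x => if hx : x ∈ M.E then (e ⟨x, hx⟩).rep else 0
  have hv : ∀ x (hx : x ∈ M.E), v x = (e ⟨x, hx⟩).rep := fun x hx => dif_pos hx
  have hvW : ∀ x (hx : x ∈ M.E) (W : Submodule K (Fin n → K)),
      v x ∈ W ↔ (e ⟨x, hx⟩).submodule ≤ W := by
    intro x hx W
    rw [hv x hx, Projectivization.submodule_eq, Submodule.span_singleton_le_iff_mem]
  have h0 : ∀ x ∈ M.E, v x ≠ 0 := by
    intro x hx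
    rw [hv x hx]
    exact Projectivization.rep_nonzero _
  have hs : ∀ w : Fin n → K, w ≠ 0 → ∃ x ∈ M.E, ∃ c : K, w = c • v x := by
    intro w hw
    refine ⟨e.symm (Projectivization.mk K w hw), (e.symm _).2, ?_⟩
    rw [hv _ (e.symm _).2]
    simp only [Subtype.coe_eta, Equiv.apply_symm_apply]
    obtain ⟨a, ha⟩ := Projectivization.exists_smul_eq_mk_rep K w hw
    refine ⟨(a⁻¹ : Kˣ), ?_⟩
    rw [← ha, ← Units.smul_def, inv_smul_smul]
  have hinj : ∀ x ∈ M.E, ∀ y ∈ M.E, v x ∈ Submodule.span K {v y} → x = y := by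
    intro x hx y hy hxy
    rw [Submodule.mem_span_singleton] at hxy
    obtain ⟨c, hc⟩ := hxy
    have h1 : e ⟨x, hx⟩ = e ⟨y, hy⟩ := by
      rw [← Projectivization.mk_rep (e ⟨x, hx⟩), ← Projectivization.mk_rep (e ⟨y, hy⟩),
        Projectivization.mk_eq_mk_iff']
      exact ⟨c, by rw [← hv x hx, ← hv y hy]; exact hc⟩
    exact congrArg Subtype.val (e.injective h1)
  have hfl : ∀ F ⊆ M.E, M.IsFlat F ↔ F = M.E ∨ ∃ W : Submodule K (Fin n → K),
      Module.finrank K W ≤ 3 ∧ F = {x ∈ M.E | v x ∈ W} := by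
    intro F hF
    have h1 : Subtype.val '' (Subtype.val ⁻¹' F : Set M.E) = F := by
      rw [Subtype.image_preimage_coe, Set.inter_eq_right.mpr hF]
    have h2 := he (Subtype.val ⁻¹' F)
    rw [h1] at h2
    rw [h2, ProjFlat]
    have h4 : e '' (Subtype.val ⁻¹' F) = Set.univ ↔ F = M.E := by
      rw [← Set.image_univ_of_surjective e.surjective, e.injective.image_injective.eq_iff, Set.preimage_eq_univ_iff,
        Subtype.range_coe]
      exact ⟨fun hh => hF.antisymm hh, fun hh => hh.ge⟩
    rw [h4]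
    refine or_congr Iff.rfl (exists_congr fun W => and_congr Iff.rfl ?_)
    rw [← e.symm.injective.image_injective.eq_iff, Equiv.symm_image_image]
    constructor
    · intro h5
      ext x
      constructor
      · intro hx
        refine ⟨hF hx, ?_⟩
        have h6 : (⟨x, hF hx⟩ : M.E) ∈ (Subtype.val ⁻¹' F : Set M.E) := hx
        rw [h5] at h6
        obtain ⟨p, hp, hpx⟩ := h6
        rw [hvW x (hF hx), ← hpx, Equiv.apply_symm_apply]
        exact hp
      · rintro ⟨hxE, hxW⟩
        have h6 : (⟨x, hxE⟩ : M.E) ∈ e.symm '' {p | p.submodule ≤ W} :=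
          ⟨e ⟨x, hxE⟩, (hvW x hxE W).mp hxW, e.symm_apply_apply _⟩
        rw [← h5] at h6
        exact h6
    · intro h5
      ext ⟨x, hxE⟩
      constructor
      · intro hx
        have hx' : x ∈ F := hx
        rw [h5] at hx'
        exact ⟨e ⟨x, hxE⟩, (hvW x hxE W).mp hx'.2, e.symm_apply_apply _⟩
      · rintro ⟨p, hp, hpx⟩
        change x ∈ F
        rw [h5]
        refine ⟨hxE, ?_⟩
        rw [hvW x hxE, ← hpx, Equiv.apply_symm_apply]
        exact hp
  have hI := fun I hI => Flats.conv_indep v hfin hfl I hI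
  have hn4 : 4 ≤ Module.finrank K (Fin n → K) := by
    rw [Module.finrank_fin_fun]; omega
  have hr := Flats.conv_rank v hfin hn4 hs hI
  have hrW := fun W hW => Flats.conv_eRk v hfin hs hI W hW
  have hcW := fun W => Flats.conv_card v (M := M) h0 hs hinj W
  refine ⟨⟨hfin, ?_, ?_, ?_, ?_⟩, cNum_zero ?_⟩
  · refine (hfl _ (Set.empty_subset _)).mpr (Or.inr ⟨⊥, by simp, ?_⟩)
    symm
    rw [Set.eq_empty_iff_forall_notMem]
    rintro x ⟨hx, hx2⟩
    exact h0 x hx ((Submodule.mem_bot K).mp hx2)
  · intro x hx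
    refine (hfl _ (by simpa using hx)).mpr (Or.inr ⟨Submodule.span K {v x}, ?_, ?_⟩)
    · rw [finrank_span_singleton (h0 x hx)]; omega
    · ext y
      constructor
      · intro hy
        rw [Set.mem_singleton_iff] at hy
        subst hy
        exact ⟨hx, Submodule.mem_span_singleton_self _⟩
      · rintro ⟨hy, hy2⟩
        exact hinj y hy x hx hy2
  · rw [← M.eRk_ground, hr]; rfl
  · intro F G hF hG hFG
    rcases (hfl F hF.subset_ground).mp hF with h1 | ⟨W, hW, h1⟩ <;>
      rcases (hfl G hG.subset_ground).mp hG with h2 | ⟨U, hU, h2⟩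
    · rw [h1, h2]
    · rw [h1, hr, h2, hrW U hU] at hFG
      have : (4 : ℕ) = Module.finrank K U := by exact_mod_cast hFG
      omega
    · rw [h2, hr, h1, hrW W hW] at hFG
      have : Module.finrank K W = (4 : ℕ) := by exact_mod_cast hFG
      omega
    · rw [h1, h2, hrW W hW, hrW U hU] at hFG
      have h3 : Module.finrank K W = Module.finrank K U := by exact_mod_cast hFG
      have h4 := hcW W
      have h5 := hcW U
      rw [h3] at h4
      have h6 : 0 < Nat.card K - 1 := by
        have := Finite.one_lt_card (α := K)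
        omega
      rw [h1, h2]
      exact Nat.eq_of_mul_eq_mul_right h6 (h4.trans h5.symm)
  · intro F G hF hF3 hG hG3
    have hn3 : ∀ X : Set α, M.IsFlat X → M.eRk X = 3 → ∃ W : Submodule K (Fin n → K),
        Module.finrank K W = 3 ∧ X = {x ∈ M.E | v x ∈ W} := by
      intro X hX hX3
      rcases (hfl X hX.subset_ground).mp hX with h1 | ⟨W, hW, h1⟩
      · rw [h1, hr] at hX3
        exact absurd hX3 (by decide)
      · refine ⟨W, ?_, h1⟩
        rw [h1, hrW W hW] at hX3
        exact_mod_cast hX3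
    obtain ⟨W, hW, h1⟩ := hn3 F hF hF3
    obtain ⟨U, hU, h2⟩ := hn3 G hG hG3
    have h3 := Submodule.finrank_sup_add_finrank_inf_eq W U
    have h4 := Submodule.finrank_le (W ⊔ U)
    rw [Module.finrank_fin_fun] at h4
    have h5 : 0 < Module.finrank K (W ⊓ U : Submodule K (Fin n → K)) := by omega
    have hbot : W ⊓ U ≠ ⊥ := by
      intro hb
      rw [hb, finrank_bot] at h5
      exact lt_irrefl _ h5
    obtain ⟨w, hwWU, hw⟩ := Submodule.exists_mem_ne_zero_of_ne_bot hbot
    obtain ⟨x, hx, c, hc⟩ := hs w hw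
    have hc0 : c ≠ 0 := by
      rintro rfl
      exact hw (by rw [hc, zero_smul])
    have hvx : v x = c⁻¹ • w := by
      rw [hc, smul_smul, inv_mul_cancel₀ hc0, one_smul]
    refine ⟨x, ?_, ?_⟩
    · rw [h1]
      exact ⟨hx, by rw [hvx]; exact W.smul_mem _ hwWU.1⟩
    · rw [h2]
      exact ⟨hx, by rw [hvx]; exact U.smul_mem _ hwWU.2⟩

/-! ## The classification -/

theorem flat_comap {α : Type u} {M : Matroid α} {N : ℕ} (g : Fin N ≃ M.E) (X : Set (Fin N)) :
    (M.comap (fun i => (g i : α))).IsFlat X ↔ M.IsFlat ((fun i => (g i : α)) '' X) := by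
  have hinj : Function.Injective (fun i => (g i : α)) :=
    Subtype.val_injective.comp g.injective
  rw [Matroid.isFlat_iff_closure_eq, Matroid.isFlat_iff_closure_eq, Matroid.comap_closure_eq]
  have hr : M.closure ((fun i => (g i : α)) '' X) ⊆ Set.range (fun i => (g i : α)) := by
    intro x hx
    have hxE : x ∈ M.E := M.closure_subset_ground _ hx
    exact ⟨g.symm ⟨x, hxE⟩, by simp⟩
  constructor
  · intro h
    conv_rhs => rw [← h]
    rw [Set.image_preimage_eq_of_subset hr]
  · intro h
    rw [h, Set.preimage_image_eq _ hinj]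

theorem rk_comap {α : Type u} {M : Matroid α} {N : ℕ} (g : Fin N ≃ M.E) (X : Set (Fin N)) :
    (M.comap (fun i => (g i : α))).eRk X = M.eRk ((fun i => (g i : α)) '' X) :=
  Matroid.eRk_comap M X

theorem image_g {α : Type u} {M : Matroid α} {N : ℕ} (g : Fin N ≃ M.E) (A : Set M.E) :
    (fun i => (g i : α)) '' (g.symm '' A) = Subtype.val '' A := by
  rw [Set.image_image]
  simp

theorem finite_field {K : Type} [Field K] {n : ℕ} (hn : 2 ≤ n) [Finite (ℙ K (Fin n → K))] :
    Finite K := by
  have h0 : ∀ c : K, (fun i : Fin n => if i = ⟨0, by omega⟩ then (1 : K) else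
      if i = ⟨1, by omega⟩ then c else 0) ≠ 0 := by
    intro c h
    have := congrFun h ⟨0, by omega⟩
    simp at this
  refine Finite.of_injective (fun c : K => Projectivization.mk K _ (h0 c)) ?_
  intro c d hcd
  have h1 := (Projectivization.mk_eq_mk_iff' K _ _ (h0 c) (h0 d)).mp hcd
  obtain ⟨a, ha⟩ := h1
  have h2 := congrFun ha ⟨0, by omega⟩
  have h3 := congrFun ha ⟨1, by omega⟩
  simp at h2 h3
  rw [h2, one_mul] at h3
  exact h3.symm

theorem iso_bool {α : Type u} {M : Matroid α} {N n : ℕ} (g : Fin N ≃ M.E) (hN : N = n)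
    (hfl : ∀ X : Set (Fin N), M.IsFlat ((fun i => (g i : α)) '' X) ↔ X = Set.univ ∨ X.ncard ≤ 3) :
    IsoTo M (BoolFlat n) := by
  subst hN
  refine ⟨g.symm, fun A => ?_⟩
  rw [← image_g g A, hfl]
  rfl

theorem iso_proj {α : Type u} {M : Matroid α} {N n : ℕ} (hn : n = 4 ∨ n = 5) (g : Fin N ≃ M.E)
    {K : Type} [Field K] (v : Fin N → Fin n → K) (h0 : ∀ i, v i ≠ 0)
    (hs : ∀ w : Fin n → K, w ≠ 0 → ∃ i, ∃ c : K, w = c • v i)
    (hinj : ∀ i j, i ≠ j → LinearIndepOn K v {i, j})
    (hfl : ∀ X : Set (Fin N), M.IsFlat ((fun i => (g i : α)) '' X) ↔ X = Set.univ ∨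
      ∃ W : Submodule K (Fin n → K), Module.finrank K W ≤ 3 ∧ X = {i | v i ∈ W}) :
    Finite K ∧ IsoTo M (ProjFlat K n) := by
  have hmi : Function.Injective (fun i => Projectivization.mk K (v i) (h0 i)) := by
    intro i j hij
    by_contra hne
    obtain ⟨a, ha⟩ := (Projectivization.mk_eq_mk_iff' K _ _ (h0 i) (h0 j)).mp hij
    have h1 := linearIndepOn_iff_notMem_span.mp (hinj i j hne) i (by simp)
    apply h1
    have h2 : ({i, j} : Set (Fin N)) \ {i} = {j} := by
      ext k
      simp only [Set.mem_sdiff, Set.mem_insert_iff, Set.mem_singleton_iff]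
      constructor
      · rintro ⟨h | h, h'⟩
        · exact absurd h h'
        · exact h
      · rintro rfl
        exact ⟨Or.inr rfl, fun h => hne h.symm⟩
    rw [h2, Set.image_singleton, Submodule.mem_span_singleton]
    exact ⟨a, ha⟩
  have hms : Function.Surjective (fun i => Projectivization.mk K (v i) (h0 i)) := by
    intro p
    obtain ⟨i, c, hc⟩ := hs p.rep p.rep_nonzero
    refine ⟨i, ?_⟩
    change Projectivization.mk K (v i) (h0 i) = p
    conv_rhs => rw [← p.mk_rep]
    rw [Projectivization.mk_eq_mk_iff']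
    have hc0 : c ≠ 0 := by
      rintro rfl
      exact p.rep_nonzero (by rw [hc, zero_smul])
    exact ⟨c⁻¹, by rw [hc, smul_smul, inv_mul_cancel₀ hc0, one_smul]⟩
  let m : Fin N ≃ ℙ K (Fin n → K) := Equiv.ofBijective _ ⟨hmi, hms⟩
  have hPf : Finite (ℙ K (Fin n → K)) := Finite.of_equiv _ m
  refine ⟨finite_field (n := n) (by omega), g.symm.trans m, fun A => ?_⟩
  rw [← image_g g A, hfl, ProjFlat, Equiv.coe_trans, Set.image_comp]
  have h1 : m '' (g.symm '' A) = Set.univ ↔ g.symm '' A = Set.univ := by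
    rw [← Set.image_univ_of_surjective m.surjective, m.injective.image_injective.eq_iff]
  rw [h1]
  refine or_congr Iff.rfl (exists_congr fun W => and_congr Iff.rfl ?_)
  have h2 : m '' {i | v i ∈ W} = {p | p.submodule ≤ W} := by
    ext p
    constructor
    · rintro ⟨i, hi, rfl⟩
      change (Projectivization.mk K (v i) (h0 i)).submodule ≤ W
      rw [Projectivization.submodule_mk, Submodule.span_singleton_le_iff_mem]
      exact hi
    · intro hp
      refine ⟨m.symm p, ?_, m.apply_symm_apply p⟩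
      have h3 : p = Projectivization.mk K (v (m.symm p)) (h0 _) := (m.apply_symm_apply p).symm
      have h4 : p.submodule ≤ W := hp
      rw [h3, Projectivization.submodule_mk, Submodule.span_singleton_le_iff_mem] at h4
      exact h4
  rw [← h2, m.injective.image_injective.eq_iff]

/-- **Classification of the rank-4 perfect matroid designs with `c(0,3) = 0`.** -/
theorem result {α : Type u} (M : Matroid α) :
    (IsPMD M 4 ∧ ∀ F : Set α, M.IsFlat F → M.eRk F = 3 → cNum M ∅ F 3 = 0) ↔
      (IsoTo M (BoolFlat 4) ∨ IsoTo M (BoolFlat 5) ∨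
        ∃ (K : Type) (_ : Field K) (_ : Finite K),
          IsoTo M (ProjFlat K 4) ∨ IsoTo M (ProjFlat K 5)) := by
  constructor
  · rintro ⟨hP, hc⟩
    have hfE : Finite M.E := hP.finite.to_subtype
    set N := Nat.card M.E with hN
    let g : Fin N ≃ M.E := (Finite.equivFin M.E).symm
    set f : Fin N → α := fun i => (g i : α) with hf
    have hfi : Function.Injective f := Subtype.val_injective.comp g.injective
    have hE : (M.comap f).E = Set.univ := by
      rw [Matroid.comap_ground_eq, Set.preimage_eq_univ_iff]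
      rintro _ ⟨i, rfl⟩
      exact (g i).2
    have hfE' : f '' Set.univ = M.E := by
      rw [Set.image_univ]
      apply subset_antisymm
      · rintro _ ⟨i, rfl⟩
        exact (g i).2
      · intro x hx
        exact ⟨g.symm ⟨x, hx⟩, by simp [hf]⟩
    have hr4 : (M.comap f).eRk (M.comap f).E = 4 := by
      rw [hE, rk_comap g, hfE', M.eRk_ground, hP.rank_eq]
      rfl
    have hPMD : PMD (M.comap f) := by
      refine ⟨⟨by rw [hE]; exact Set.finite_univ⟩, ?_, ?_, ?_, hr4, ?_⟩
      · rw [flat_comap g, Set.image_empty]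
        exact hP.flat_empty
      · intro i _
        rw [flat_comap g, Set.image_singleton]
        exact hP.flat_point _ (g i).2
      · intro F G hF hG hFG
        rw [flat_comap g] at hF hG
        rw [rk_comap g, rk_comap g] at hFG
        have := hP.size_eq _ _ hF hG hFG
        rw [Set.ncard_image_of_injective _ hfi, Set.ncard_image_of_injective _ hfi] at this
        exact this
      · intro H₁ H₂ h1 h2 h3 h4
        rw [flat_comap g] at h1 h2
        rw [rk_comap g] at h3 h4
        obtain ⟨x, ⟨i, hi, hix⟩, ⟨j, hj, hjx⟩⟩ := hyp_meet hP.finite hc h1 h3 h2 h4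
        have : i = j := hfi (hix.trans hjx.symm)
        subst this
        exact ⟨i, hi, hj⟩
    have hfin : (M.comap f).E.Finite := by rw [hE]; exact Set.finite_univ
    rcases classification hPMD with ⟨hcard, hI⟩ | ⟨K, _, n, v, hn, h0, hs, hI⟩
    · have hfl : ∀ X : Set (Fin N), M.IsFlat (f '' X) ↔ X = Set.univ ∨ X.ncard ≤ 3 := by
        intro X
        rw [← flat_comap g, Flats.bool_isFlat_iff hfin hr4 hI (by rw [hE]; exact Set.subset_univ _),
          hE]
      rw [hE, Set.ncard_univ, Nat.card_eq_fintype_card, Fintype.card_fin] at hcard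
      rcases hcard with h4 | h5
      · exact Or.inl (iso_bool g h4 hfl)
      · exact Or.inr (Or.inl (iso_bool g h5 hfl))
    · right; right
      have hI' : ∀ I ⊆ (M.comap f).E, ((M.comap f).Indep I ↔ (I.ncard ≤ 4 ∧
          LinearIndepOn K v I)) := hI
      have hfl : ∀ X : Set (Fin N), M.IsFlat (f '' X) ↔ X = Set.univ ∨
          ∃ W : Submodule K (Fin n → K), Module.finrank K W ≤ 3 ∧ X = {i | v i ∈ W} := by
        intro X
        rw [← flat_comap g, Flats.proj_isFlat_iff v hfin hr4 hI' (by rw [hE]; exact Set.subset_univ _),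
          hE]
        simp only [Set.mem_univ, true_and]
      have h0' : ∀ i, v i ≠ 0 := fun i => h0 i (by rw [hE]; trivial)
      have hs' : ∀ w : Fin n → K, w ≠ 0 → ∃ i, ∃ c : K, w = c • v i := by
        intro w hw
        obtain ⟨i, _, c, hc⟩ := hs w hw
        exact ⟨i, c, hc⟩
      have hinj : ∀ i j, i ≠ j → LinearIndepOn K v {i, j} := by
        intro i j hij
        exact ((hI' _ (by rw [hE]; exact Set.subset_univ _)).mp
          (hPMD.indep_pair (by rw [hE]; trivial) (by rw [hE]; trivial) hij)).2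
      obtain ⟨hKf, hiso⟩ := iso_proj hn g v h0' hs' hinj hfl
      rcases hn with rfl | rfl
      · exact ⟨K, _, hKf, Or.inl hiso⟩
      · exact ⟨K, _, hKf, Or.inr hiso⟩
  · rintro (h | h | ⟨K, _, _, h | h⟩)
    · exact of_bool (Or.inl rfl) h
    · exact of_bool (Or.inr rfl) h
    · exact of_proj (Or.inl rfl) h
    · exact of_proj (Or.inr rfl) h

end Pool.Agent.Results.MP_84111f_co.Classification
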